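import Mathlib
import Pool.Agent.H24.SDivDefs
import Pool.Agent.H24.SDivE

set_option autoImplicit false

namespace Pool.Agent.Results.MP_c671ed_lc.BothReadings

open FirstOrder Pool.Agent.H24.SDivDefs

/-- The class of subdirect products of division rings is not first-order axiomatizable, neither in
the unital reading (unital rings, language `+, -, ·, 0, 1`) nor in the non-unital reading
(rings that need not have a unit, language `+, -, ·, 0`). -/
theorem result :
    (¬ ∃ T : Language.ring.Theory, ∀ (R : Type) [Ring R] [Ring.CompatibleRing R],
      (R ⊨ T ↔ SubdirectDivUnital R)) ∧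
    (¬ ∃ T : rngLang.Theory, ∀ (R : Type) [NonUnitalRing R],
      (@Language.Theory.Model rngLang R (rngStructure R) T ↔ SubdirectDivNonUnital R)) :=
  ⟨Pool.Agent.H24.SDiv.unital_reading, Pool.Agent.H24.SDiv.nonUnital_reading⟩

end Pool.Agent.Results.MP_c671ed_lc.BothReadings
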