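import Mathlib
import Pool.Agent.H24.SDivDefs
import Pool.Agent.H24.SDivE

set_option autoImplicit false

namespace Pool.Agent.Results.MP_c671ed_lc.Unital

open FirstOrder Pool.Agent.H24.SDivDefs

/-- Unital reading: no set of first-order sentences in the language `+, -, ·, 0, 1` has as its
models (among unital rings) exactly the subdirect products of division rings. -/
theorem result :
    ¬ ∃ T : Language.ring.Theory, ∀ (R : Type) [Ring R] [Ring.CompatibleRing R],
      (R ⊨ T ↔ SubdirectDivUnital R) :=
  Pool.Agent.H24.SDiv.unital_reading

end Pool.Agent.Results.MP_c671ed_lc.Unital
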