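import Mathlib
import Pool.Agent.H24.SDivDefs
import Pool.Agent.H24.SDivE

set_option autoImplicit false

namespace Pool.Agent.Results.MP_c671ed_lc.Witness

open FirstOrder Pool.Agent.H24.SDivDefs

/-- There are two elementarily equivalent unital rings `R`, `S` such that `R` is a subdirect product
of division rings (with unital homomorphisms) while `S` is not one, even when the homomorphisms are
not required to be unital. -/
theorem result :
    ∃ (R S : Type) (_ : Ring R) (_ : Ring S) (_ : Ring.CompatibleRing R)
      (_ : Ring.CompatibleRing S),
      (R ≅[Language.ring] S) ∧ SubdirectDivUnital R ∧ ¬ SubdirectDivNonUnital S :=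
  Pool.Agent.H24.SDiv.witness

end Pool.Agent.Results.MP_c671ed_lc.Witness
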